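import Mathlib

set_option autoImplicit false

/-!
Finite probability: averages over finite types, Markov, union bounds, Hoeffding's inequality for
Rademacher sums.
-/

namespace Pool.Agent.Helper67.JL

open Finset

/-- Average of `f` over a finite type. -/
noncomputable def ex {Ω : Type} [Fintype Ω] (f : Ω → ℝ) : ℝ := (∑ ω, f ω) / Fintype.card Ω

/-- Proportion of the elements of a finite type satisfying `p`. -/
noncomputable def pr {Ω : Type} [Fintype Ω] (p : Ω → Prop) : ℝ := by
  classical exact ex (fun ω => if p ω then (1 : ℝ) else 0)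

section basic

variable {Ω Ω' : Type} [Fintype Ω] [Fintype Ω']

theorem pr_def (p : Ω → Prop) [DecidablePred p] :
    pr p = ex (fun ω => if p ω then (1 : ℝ) else 0) := by
  unfold pr
  congr!

theorem pr_eq_card (p : Ω → Prop) [DecidablePred p] :
    pr p = ((univ.filter p).card : ℝ) / Fintype.card Ω := by
  rw [pr_def, ex]
  simp

theorem ex_mono {f g : Ω → ℝ} (h : ∀ ω, f ω ≤ g ω) : ex f ≤ ex g := by
  unfold ex
  gcongr with ω
  exact h ω

theorem ex_nonneg {f : Ω → ℝ} (h : ∀ ω, 0 ≤ f ω) : 0 ≤ ex f := by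
  unfold ex
  apply div_nonneg (sum_nonneg fun ω _ => h ω) (Nat.cast_nonneg _)

theorem ex_add (f g : Ω → ℝ) : ex (fun ω => f ω + g ω) = ex f + ex g := by
  unfold ex
  rw [sum_add_distrib, add_div]

theorem ex_mul_left (c : ℝ) (f : Ω → ℝ) : ex (fun ω => c * f ω) = c * ex f := by
  unfold ex
  rw [← mul_sum, mul_div_assoc]

theorem ex_mul_right (c : ℝ) (f : Ω → ℝ) : ex (fun ω => f ω * c) = ex f * c := by
  simp_rw [mul_comm _ c]
  exact ex_mul_left c f

theorem ex_sum {α : Type} (S : Finset α) (f : α → Ω → ℝ) :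
    ex (fun ω => ∑ a ∈ S, f a ω) = ∑ a ∈ S, ex (f a) := by
  unfold ex
  rw [sum_comm, sum_div]

theorem ex_const [Nonempty Ω] (c : ℝ) : ex (fun _ : Ω => c) = c := by
  unfold ex
  rw [sum_const, card_univ, nsmul_eq_mul]
  have : (Fintype.card Ω : ℝ) ≠ 0 := Nat.cast_ne_zero.mpr Fintype.card_ne_zero
  field_simp

theorem ex_const_le (c : ℝ) (hc : 0 ≤ c) : ex (fun _ : Ω => c) ≤ c := by
  rcases isEmpty_or_nonempty Ω with h | h
  · unfold ex
    simp [hc]
  · rw [ex_const]

theorem ex_prod (f : Ω × Ω' → ℝ) :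
    ex f = ex (fun ω => ex (fun ω' => f (ω, ω'))) := by
  unfold ex
  rw [Fintype.sum_prod_type, Fintype.card_prod, ← sum_div]
  push_cast
  rw [div_div, mul_comm]

theorem ex_equiv (e : Ω ≃ Ω') (f : Ω' → ℝ) : ex f = ex (fun ω => f (e ω)) := by
  unfold ex
  rw [← Fintype.card_congr e, e.sum_comp]

theorem pr_nonneg (p : Ω → Prop) : 0 ≤ pr p := by
  classical
  rw [pr_def]
  apply ex_nonneg
  intro ω
  split_ifs <;> norm_num

theorem pr_mono {p q : Ω → Prop} (h : ∀ ω, p ω → q ω) : pr p ≤ pr q := by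
  classical
  rw [pr_def, pr_def]
  apply ex_mono
  intro ω
  by_cases hp : p ω
  · simp [hp, h ω hp]
  · simp only [hp, if_false]
    split_ifs <;> norm_num

theorem pr_le_one (p : Ω → Prop) : pr p ≤ 1 := by
  classical
  rw [pr_def]
  refine le_trans (ex_mono (g := fun _ => 1) ?_) (ex_const_le 1 zero_le_one)
  intro ω
  split_ifs <;> norm_num

theorem pr_false : pr (fun _ : Ω => False) = 0 := by
  classical
  rw [pr_def, ex]
  simp

theorem pr_or_le (p q : Ω → Prop) : pr (fun ω => p ω ∨ q ω) ≤ pr p + pr q := by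
  classical
  rw [pr_def, pr_def, pr_def, ← ex_add]
  apply ex_mono
  intro ω
  by_cases hp : p ω <;> by_cases hq : q ω <;> simp [hp, hq]

theorem pr_exists_le {α : Type} (S : Finset α) (p : α → Ω → Prop) :
    pr (fun ω => ∃ a ∈ S, p a ω) ≤ ∑ a ∈ S, pr (p a) := by
  classical
  induction S using Finset.induction_on with
  | empty =>
    refine le_trans (pr_mono (q := fun _ => False) ?_) ?_
    · rintro ω ⟨a, ha, _⟩
      simp at ha
    · simp [pr_false]
  | insert a S ha ih =>
    rw [sum_insert ha]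
    refine le_trans (pr_mono (q := fun ω => p a ω ∨ ∃ b ∈ S, p b ω) ?_)
      ((pr_or_le _ _).trans (add_le_add le_rfl ih))
    rintro ω ⟨b, hb, hpb⟩
    rcases mem_insert.mp hb with rfl | hb
    · exact Or.inl hpb
    · exact Or.inr ⟨b, hb, hpb⟩

theorem pr_exists_le_card_mul {α : Type} (S : Finset α) (p : α → Ω → Prop) (c : ℝ)
    (h : ∀ a ∈ S, pr (p a) ≤ c) : pr (fun ω => ∃ a ∈ S, p a ω) ≤ S.card * c := by
  refine (pr_exists_le S p).trans ?_
  have := sum_le_card_nsmul S (fun a => pr (p a)) c h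
  rwa [nsmul_eq_mul] at this

theorem exists_not_of_pr_lt_one [Nonempty Ω] (p : Ω → Prop) (h : pr p < 1) : ∃ ω, ¬ p ω := by
  classical
  by_contra hcon
  have h1 : ∀ ω, p ω := fun ω => by_contra fun h' => hcon ⟨ω, h'⟩
  have : pr p = 1 := by
    rw [pr_def]
    have : (fun ω => if p ω then (1 : ℝ) else 0) = fun _ => 1 := by
      funext ω
      simp [h1 ω]
    rw [this, ex_const]
  linarith

theorem pr_compl (p : Ω → Prop) [Nonempty Ω] : pr (fun ω => ¬ p ω) = 1 - pr p := by
  classical
  have h : pr (fun ω => ¬ p ω) + pr p = 1 := by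
    rw [pr_def, pr_def, ← ex_add]
    have : (fun ω => (if ¬ p ω then (1 : ℝ) else 0) + if p ω then (1 : ℝ) else 0)
        = fun _ => 1 := by
      funext ω
      by_cases h : p ω <;> simp [h]
    rw [this, ex_const]
  linarith

/-- Markov's inequality for exponential moments. -/
theorem pr_le_exp (X : Ω → ℝ) (c lam : ℝ) (hl : 0 ≤ lam) :
    pr (fun ω => c ≤ X ω) ≤ Real.exp (-lam * c) * ex (fun ω => Real.exp (lam * X ω)) := by
  classical
  rw [pr_def, ← ex_mul_left]
  apply ex_mono
  intro ω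
  rw [← Real.exp_add]
  split_ifs with h
  · apply Real.one_le_exp
    nlinarith [mul_le_mul_of_nonneg_left h hl]
  · exact (Real.exp_pos _).le

/-- Union bound for two stages. -/
theorem pr_prod_or_le (p : Ω → Prop) (q : Ω → Ω' → Prop) (a b : ℝ) (hb : 0 ≤ b)
    (hp : pr p ≤ a) (hq : ∀ ω, ¬ p ω → pr (q ω) ≤ b) :
    pr (fun w : Ω × Ω' => p w.1 ∨ q w.1 w.2) ≤ a + b := by
  classical
  rw [pr_def, ex_prod]
  have h : ∀ ω, ex (fun ω' : Ω' => if p ω ∨ q ω ω' then (1 : ℝ) else 0) ≤
      (if p ω then (1 : ℝ) else 0) + b := by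
    intro ω
    by_cases hpω : p ω
    · simp only [hpω, true_or, if_true]
      have := ex_const_le (Ω := Ω') 1 zero_le_one
      linarith
    · simp only [hpω, false_or, if_false, zero_add]
      have := hq ω hpω
      rwa [pr_def] at this
  refine (ex_mono h).trans ?_
  rw [ex_add]
  have h1 := ex_const_le (Ω := Ω) b hb
  rw [pr_def] at hp
  linarith

end basic

section signs

variable {ι : Type} [Fintype ι] [DecidableEq ι]

/-- The sign attached to a Boolean. -/
def sg (b : Bool) : ℝ := if b then 1 else -1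

@[simp] theorem sg_true : sg true = 1 := rfl
@[simp] theorem sg_false : sg false = -1 := rfl

theorem sg_sq (b : Bool) : sg b ^ 2 = 1 := by cases b <;> simp

theorem sg_mul_self (b : Bool) : sg b * sg b = 1 := by cases b <;> simp

theorem abs_sg (b : Bool) : |sg b| = 1 := by cases b <;> simp

theorem sg_not (b : Bool) : sg (!b) = - sg b := by cases b <;> simp

theorem ex_prod_signs (g : ι → Bool → ℝ) :
    ex (fun s : ι → Bool => ∏ i, g i (s i)) = ∏ i, ((g i true + g i false) / 2) := by
  unfold ex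
  rw [← Fintype.prod_sum, prod_div_distrib, prod_const, card_univ, Fintype.card_fun,
    Fintype.card_bool]
  congr 1
  · apply prod_congr rfl
    intro i _
    rw [Fintype.sum_bool]
  · push_cast
    rfl

/-- Exponential moments of Rademacher sums. -/
theorem ex_exp_signs_le (a : ι → ℝ) :
    ex (fun s : ι → Bool => Real.exp (∑ i, sg (s i) * a i)) ≤
      Real.exp ((∑ i, a i ^ 2) / 2) := by
  have h : (fun s : ι → Bool => Real.exp (∑ i, sg (s i) * a i)) =
      fun s => ∏ i, Real.exp (sg (s i) * a i) := by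
    funext s
    rw [Real.exp_sum]
  rw [h, ex_prod_signs (fun i b => Real.exp (sg b * a i)), sum_div, Real.exp_sum]
  apply prod_le_prod
  · intro i _
    positivity
  · intro i _
    have := Real.cosh_le_exp_half_sq (a i)
    rw [Real.cosh_eq] at this
    simpa using this

/-- Hoeffding's inequality, one-sided. -/
theorem hoeffding_one (a : ι → ℝ) (V u : ℝ) (hV : 0 < V) (hu : 0 ≤ u)
    (ha : ∑ i, a i ^ 2 ≤ V) :
    pr (fun s : ι → Bool => u ≤ ∑ i, sg (s i) * a i) ≤ Real.exp (-(u ^ 2 / (2 * V))) := by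
  have h := pr_le_exp (fun s : ι → Bool => ∑ i, sg (s i) * a i) u (u / V) (by positivity)
  refine h.trans ?_
  have h2 : ex (fun s : ι → Bool => Real.exp (u / V * ∑ i, sg (s i) * a i)) ≤
      Real.exp ((u / V) ^ 2 * V / 2) := by
    have h3 := ex_exp_signs_le (fun i => u / V * a i)
    have h4 : (fun s : ι → Bool => Real.exp (u / V * ∑ i, sg (s i) * a i)) =
        fun s => Real.exp (∑ i, sg (s i) * (u / V * a i)) := by
      funext s
      rw [mul_sum]
      congr 1
      apply sum_congr rfl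
      intro i _
      ring
    rw [h4]
    refine h3.trans (Real.exp_le_exp.mpr ?_)
    have h5 : ∑ i, (u / V * a i) ^ 2 = (u / V) ^ 2 * ∑ i, a i ^ 2 := by
      rw [mul_sum]
      apply sum_congr rfl
      intro i _
      ring
    rw [h5]
    have := mul_le_mul_of_nonneg_left ha (sq_nonneg (u / V))
    linarith
  refine (mul_le_mul_of_nonneg_left h2 (Real.exp_pos _).le).trans ?_
  rw [← Real.exp_add]
  apply Real.exp_le_exp.mpr
  have : -(u / V) * u + (u / V) ^ 2 * V / 2 = -(u ^ 2 / (2 * V)) := by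
    field_simp
    ring
  rw [this]

/-- Hoeffding's inequality: with probability at least `1 - 2 e^{-t}` the square of the
Rademacher sum is less than `2 V t`. -/
theorem hoeffding (a : ι → ℝ) (V t : ℝ) (hV : 0 < V) (ht : 0 ≤ t)
    (ha : ∑ i, a i ^ 2 ≤ V) :
    pr (fun s : ι → Bool => 2 * V * t ≤ (∑ i, sg (s i) * a i) ^ 2) ≤ 2 * Real.exp (-t) := by
  set u := Real.sqrt (2 * V * t) with hu
  have hu0 : 0 ≤ u := Real.sqrt_nonneg _
  have hu2 : u ^ 2 = 2 * V * t := Real.sq_sqrt (by positivity)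
  have h1 := hoeffding_one a V u hV hu0 ha
  have h2 := hoeffding_one (fun i => - a i) V u hV hu0 (by simpa using ha)
  have h3 : u ^ 2 / (2 * V) = t := by
    rw [hu2]
    field_simp
  rw [h3] at h1 h2
  refine le_trans (pr_mono (q := fun s => (u ≤ ∑ i, sg (s i) * a i) ∨
    (u ≤ ∑ i, sg (s i) * - a i)) ?_) ((pr_or_le _ _).trans (by linarith))
  intro s hs
  rw [← hu2, sq_le_sq, abs_of_nonneg hu0] at hs
  rcases le_abs.mp hs with h | h
  · exact Or.inl h
  · right
    have : ∑ i, sg (s i) * - a i = - ∑ i, sg (s i) * a i := by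
      rw [← sum_neg_distrib]
      apply sum_congr rfl
      intro i _
      ring
    rw [this]
    exact h

end signs

end Pool.Agent.Helper67.JL
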