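import Pool.Agent.Helper67.JL.Signs

set_option autoImplicit false

/-!
Exponential moments of `‖∑ σ_i w_i‖²` for independent random signs `σ_i`, by integrating out
one sign at a time and controlling the resulting quadratic form variationally.
-/

namespace Pool.Agent.Helper67.JL

open Finset

section abstractChaos

variable {V : Type} [NormedAddCommGroup V] [InnerProductSpace ℝ V]

open scoped RealInnerProductSpace

theorem ex_bool (f : Bool → ℝ) : ex f = (f true + f false) / 2 := by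
  unfold ex
  rw [Fintype.sum_bool, Fintype.card_bool]
  norm_num

theorem ex_fin_succ {n : ℕ} (f : (Fin (n + 1) → Bool) → ℝ) :
    ex f = ex (fun s : Fin n → Bool => (f (Fin.cons true s) + f (Fin.cons false s)) / 2) := by
  have h1 : ex f = ex (fun p : Bool × (Fin n → Bool) => f (Fin.cons p.1 p.2)) := by
    rw [ex_equiv (Fin.consEquiv (fun _ => Bool))]
    rfl
  have h2 : ex (fun p : Bool × (Fin n → Bool) => f (Fin.cons p.1 p.2)) =
      ex (fun p : (Fin n → Bool) × Bool => f (Fin.cons p.2 p.1)) := by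
    rw [ex_equiv (Equiv.prodComm (Fin n → Bool) Bool)]
    rfl
  rw [h1, h2, ex_prod]
  congr 1
  funext s
  rw [ex_bool]

/-- Rank one update of a bilinear form. -/
noncomputable def upd (B : V →ₗ[ℝ] V →ₗ[ℝ] ℝ) (c : ℝ) (w : V) : V →ₗ[ℝ] V →ₗ[ℝ] ℝ :=
  B + c • (B w).smulRight (B w)

theorem upd_apply (B : V →ₗ[ℝ] V →ₗ[ℝ] ℝ) (c : ℝ) (w y z : V) :
    upd B c w y z = B y z + c * (B w y * B w z) := by
  simp [upd]

theorem bilin_expand (B : V →ₗ[ℝ] V →ₗ[ℝ] ℝ) (hB : ∀ y z, B y z = B z y) (u w : V) (t : ℝ) :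
    B (u + t • w) (u + t • w) = B u u + 2 * t * B w u + t ^ 2 * B w w := by
  simp only [map_add, LinearMap.add_apply, map_smul, LinearMap.smul_apply, smul_eq_mul]
  rw [hB u w]
  ring

theorem avg_exp_le (x y : ℝ) : (Real.exp (x + 2 * y) + Real.exp (x - 2 * y)) / 2 ≤
    Real.exp (x + 2 * y ^ 2) := by
  have h := Real.cosh_le_exp_half_sq (2 * y)
  rw [Real.cosh_eq] at h
  have h1 : (Real.exp (x + 2 * y) + Real.exp (x - 2 * y)) / 2 =
      Real.exp x * ((Real.exp (2 * y) + Real.exp (-(2 * y))) / 2) := by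
    rw [sub_eq_add_neg, Real.exp_add, Real.exp_add]
    ring
  rw [h1, Real.exp_add]
  refine mul_le_mul_of_nonneg_left (h.trans (Real.exp_le_exp.mpr ?_)) (Real.exp_pos _).le
  nlinarith

/-- Upper exponential moment. -/
theorem chaos_upper_aux (c beta : ℝ) (hc : 0 < c - 2 * beta) : ∀ (n : ℕ) (w : Fin n → V)
    (B : V →ₗ[ℝ] V →ₗ[ℝ] ℝ) (S : V → ℝ),
    (∀ y z, B y z = B z y) → (∀ y, 0 ≤ B y y) →
    (∀ y, ∃ z, B y y ≤ 2 * ⟪y, z⟫ - c * ‖z‖ ^ 2 + 2 * S z) →
    (∀ z, S z + ∑ i, ⟪w i, z⟫ ^ 2 ≤ beta * ‖z‖ ^ 2) →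
    ex (fun s : Fin n → Bool => Real.exp (B (∑ i, sg (s i) • w i) (∑ i, sg (s i) • w i))) ≤
      Real.exp ((c - 2 * beta)⁻¹ * ∑ i, ‖w i‖ ^ 2) := by
  intro n
  induction n with
  | zero =>
    intro w B S _ _ _ _
    simp [ex]
  | succ n ih =>
    intro w B S hsym hpos hP htot
    have hSle : ∀ z, S z ≤ beta * ‖z‖ ^ 2 := by
      intro z
      have h1 : 0 ≤ ∑ i, ⟪w i, z⟫ ^ 2 := sum_nonneg fun i _ => sq_nonneg _
      have h2 := htot z
      linarith
    have hBw : B (w 0) (w 0) ≤ (c - 2 * beta)⁻¹ * ‖w 0‖ ^ 2 := by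
      obtain ⟨z, hz⟩ := hP (w 0)
      have h1 : ⟪w 0, z⟫ ≤ ‖w 0‖ * ‖z‖ := real_inner_le_norm _ _
      have h2 := hSle z
      have h3 : 2 * (‖w 0‖ * ‖z‖) - (c - 2 * beta) * ‖z‖ ^ 2 ≤
          (c - 2 * beta)⁻¹ * ‖w 0‖ ^ 2 := by
        have h4 : (c - 2 * beta)⁻¹ * ‖w 0‖ ^ 2 - (2 * (‖w 0‖ * ‖z‖) -
            (c - 2 * beta) * ‖z‖ ^ 2) =
            (c - 2 * beta)⁻¹ * (‖w 0‖ - (c - 2 * beta) * ‖z‖) ^ 2 := by
          field_simp
          ring
        have h5 : 0 ≤ (c - 2 * beta)⁻¹ * (‖w 0‖ - (c - 2 * beta) * ‖z‖) ^ 2 := by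
          positivity
        linarith
      nlinarith
    set B' := upd B 2 (w 0) with hB'
    have hstep := ih (fun i => w i.succ) B' (fun z => S z + ⟪w 0, z⟫ ^ 2)
      (by
        intro y z
        rw [hB', upd_apply, upd_apply, hsym y z]
        ring)
      (by
        intro y
        rw [hB', upd_apply]
        nlinarith [hpos y, mul_self_nonneg (B (w 0) y)])
      (by
        intro y
        set a := B (w 0) y with ha
        obtain ⟨z, hz⟩ := hP (y + (2 * a) • w 0)
        refine ⟨z, ?_⟩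
        rw [bilin_expand B hsym] at hz
        rw [inner_add_left, real_inner_smul_left] at hz
        rw [hB', upd_apply, ← ha]
        rw [← ha] at hz
        have hw := hpos (w 0)
        nlinarith [mul_nonneg (sq_nonneg a) hw, sq_nonneg (a - ⟪w 0, z⟫)])
      (by
        intro z
        have := htot z
        rw [Fin.sum_univ_succ] at this
        linarith)
    have hbig : ex (fun s : Fin (n + 1) → Bool =>
        Real.exp (B (∑ i, sg (s i) • w i) (∑ i, sg (s i) • w i))) ≤
        Real.exp (B (w 0) (w 0)) * ex (fun s : Fin n → Bool =>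
          Real.exp (B' (∑ i, sg (s i) • w i.succ) (∑ i, sg (s i) • w i.succ))) := by
      rw [ex_fin_succ, ← ex_mul_left]
      apply ex_mono
      intro s
      simp only [Fin.sum_univ_succ, Fin.cons_zero, Fin.cons_succ, sg_true, sg_false]
      set u := ∑ i : Fin n, sg (s i) • w i.succ with hu
      have e1 : B ((1 : ℝ) • w 0 + u) ((1 : ℝ) • w 0 + u) =
          (B (w 0) (w 0) + B u u) + 2 * B (w 0) u := by
        rw [add_comm, bilin_expand B hsym]
        ring
      have e2 : B ((-1 : ℝ) • w 0 + u) ((-1 : ℝ) • w 0 + u) =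
          (B (w 0) (w 0) + B u u) - 2 * B (w 0) u := by
        rw [add_comm, bilin_expand B hsym]
        ring
      rw [e1, e2]
      refine (avg_exp_le _ _).trans ?_
      rw [← Real.exp_add]
      apply Real.exp_le_exp.mpr
      rw [hB', upd_apply]
      linarith [sq (B (w 0) u)]
    refine hbig.trans ?_
    refine (mul_le_mul_of_nonneg_left hstep (Real.exp_pos _).le).trans ?_
    rw [← Real.exp_add, Fin.sum_univ_succ]
    apply Real.exp_le_exp.mpr
    linarith

/-- Lower exponential moment. -/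
theorem chaos_lower_aux (c beta : ℝ) (hc : 0 < c) (hb : 0 ≤ beta) : ∀ (n : ℕ) (w : Fin n → V)
    (B : V →ₗ[ℝ] V →ₗ[ℝ] ℝ) (S : V → ℝ),
    (∀ y z, B y z = B z y) → (∀ i, B (w i) (w i) ≤ 1 / 4) →
    (∀ y z, 2 * ⟪y, z⟫ - c * ‖z‖ ^ 2 - 4 * S z ≤ B y y) →
    (∀ z, S z + ∑ i, ⟪w i, z⟫ ^ 2 ≤ beta * ‖z‖ ^ 2) →
    ex (fun s : Fin n → Bool => Real.exp (-B (∑ i, sg (s i) • w i) (∑ i, sg (s i) • w i))) ≤
      Real.exp (-((c + 4 * beta)⁻¹ * ∑ i, ‖w i‖ ^ 2)) := by
  intro n
  induction n with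
  | zero =>
    intro w B S _ _ _ _
    simp [ex]
  | succ n ih =>
    intro w B S hsym hle hQ htot
    have hSle : ∀ z, S z ≤ beta * ‖z‖ ^ 2 := by
      intro z
      have h1 : 0 ≤ ∑ i, ⟪w i, z⟫ ^ 2 := sum_nonneg fun i _ => sq_nonneg _
      have h2 := htot z
      linarith
    have hBw : (c + 4 * beta)⁻¹ * ‖w 0‖ ^ 2 ≤ B (w 0) (w 0) := by
      have h1 := hQ (w 0) ((c + 4 * beta)⁻¹ • w 0)
      have h2 := hSle ((c + 4 * beta)⁻¹ • w 0)
      rw [real_inner_smul_right, real_inner_self_eq_norm_sq] at h1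
      rw [norm_smul, mul_pow] at h1 h2
      have hpos : 0 < c + 4 * beta := by linarith
      have h3 : ‖(c + 4 * beta)⁻¹‖ ^ 2 = ((c + 4 * beta)⁻¹) ^ 2 := by
        rw [Real.norm_eq_abs, sq_abs]
      rw [h3] at h1 h2
      have h4 : (c + 4 * beta) * ((c + 4 * beta)⁻¹) ^ 2 = (c + 4 * beta)⁻¹ := by
        field_simp
      nlinarith [sq_nonneg ‖w 0‖]
    set B' := upd B (-2) (w 0) with hB'
    have hstep := ih (fun i => w i.succ) B' (fun z => S z + ⟪w 0, z⟫ ^ 2)
      (by
        intro y z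
        rw [hB', upd_apply, upd_apply, hsym y z]
        ring)
      (by
        intro i
        rw [hB', upd_apply]
        nlinarith [hle i.succ, mul_self_nonneg (B (w 0) (w i.succ))])
      (by
        intro y z
        set a := B (w 0) y with ha
        have hz := hQ (y + (-(2 * a)) • w 0) z
        rw [bilin_expand B hsym] at hz
        rw [inner_add_left, real_inner_smul_left] at hz
        rw [hB', upd_apply, ← ha]
        rw [← ha] at hz
        have hw := hle 0
        nlinarith [mul_nonneg (sq_nonneg a) (sub_nonneg.mpr hw),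
          sq_nonneg (a - 2 * ⟪w 0, z⟫)])
      (by
        intro z
        have := htot z
        rw [Fin.sum_univ_succ] at this
        linarith)
    have hbig : ex (fun s : Fin (n + 1) → Bool =>
        Real.exp (-B (∑ i, sg (s i) • w i) (∑ i, sg (s i) • w i))) ≤
        Real.exp (-B (w 0) (w 0)) * ex (fun s : Fin n → Bool =>
          Real.exp (-B' (∑ i, sg (s i) • w i.succ) (∑ i, sg (s i) • w i.succ))) := by
      rw [ex_fin_succ, ← ex_mul_left]
      apply ex_mono
      intro s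
      simp only [Fin.sum_univ_succ, Fin.cons_zero, Fin.cons_succ, sg_true, sg_false]
      set u := ∑ i : Fin n, sg (s i) • w i.succ with hu
      have e1 : -B ((1 : ℝ) • w 0 + u) ((1 : ℝ) • w 0 + u) =
          (-B (w 0) (w 0) - B u u) - 2 * B (w 0) u := by
        rw [add_comm, bilin_expand B hsym]
        ring
      have e2 : -B ((-1 : ℝ) • w 0 + u) ((-1 : ℝ) • w 0 + u) =
          (-B (w 0) (w 0) - B u u) + 2 * B (w 0) u := by
        rw [add_comm, bilin_expand B hsym]
        ring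
      rw [e1, e2, add_comm (Real.exp _)]
      refine (avg_exp_le _ _).trans ?_
      rw [← Real.exp_add]
      apply Real.exp_le_exp.mpr
      rw [hB', upd_apply]
      linarith [sq (B (w 0) u)]
    refine hbig.trans ?_
    refine (mul_le_mul_of_nonneg_left hstep (Real.exp_pos _).le).trans ?_
    rw [← Real.exp_add, Fin.sum_univ_succ]
    apply Real.exp_le_exp.mpr
    linarith

end abstractChaos

end Pool.Agent.Helper67.JL
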